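import Mathlib

/-!
# Profinite groups which preserve the leaves of a one-dimensional foliation have finite orbits
-/

set_option autoImplicit false

open Set Filter Topology

namespace Pool.Agent.U161.LF

/-- The elements of `K` map each leaf of a one-dimensional foliation (or lamination) near `x` to
itself: there are an equivalence relation `r` on `X` (the leaves are its classes) and a homeomorphism
`ψ` of an open neighbourhood of `x` onto `ℝ × Y`, `Y` a metric space, such that points of the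
neighbourhood with the same coordinate in `Y` are in one leaf, each leaf meets only countably many of
the lines `ℝ × {y}`, and all `k` in `K` map each leaf to itself. -/
def LeavesAt {G X : Type} [Group G] [TopologicalSpace X] [MulAction G X] (K : Set G) (x : X) :
    Prop :=
  ∃ (Y : Type) (_ : MetricSpace Y) (ψ : OpenPartialHomeomorph X (ℝ × Y)) (r : Setoid X),
    x ∈ ψ.source ∧ ψ.target = univ ∧
    (∀ u ∈ ψ.source, ∀ v ∈ ψ.source, (ψ u).2 = (ψ v).2 → r u v) ∧
    (∀ v : X, {y : Y | ∃ w ∈ ψ.source, r w v ∧ (ψ w).2 = y}.Countable) ∧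
    ∀ k ∈ K, ∀ z : X, r (k • z) z

/-- powers come back to open subgroups -/
lemma exists_pow_mem {S : Type} [Group S] [TopologicalSpace S] [IsTopologicalGroup S]
    [CompactSpace S] [TotallyDisconnectedSpace S] {W : Set S} (hW : W ∈ 𝓝 (1 : S)) (s : S) :
    ∃ m : ℕ, 0 < m ∧ s ^ m ∈ W := by
  obtain ⟨U, hUW, hU, h1⟩ := mem_nhds_iff.1 hW
  obtain ⟨N, hN⟩ := ProfiniteGrp.exist_openNormalSubgroup_sub_open_nhds_of_one hU h1
  have hfin : Finite (S ⧸ N.toSubgroup) := Subgroup.quotient_finite_of_isOpen _ N.isOpen'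
  have hfi : N.toSubgroup.FiniteIndex := Subgroup.finiteIndex_of_finite_quotient
  obtain ⟨m, hm, -, hmem⟩ := Subgroup.exists_pow_mem_of_index_ne_zero hfi.index_ne_zero s
  exact ⟨m, hm, hUW (hN hmem)⟩

/-- The main lemma: for a compact totally disconnected abelian group. -/
theorem finite_orbit {S X : Type} [Group S] [TopologicalSpace S] [IsTopologicalGroup S]
    [CompactSpace S] [T2Space S] [TotallyDisconnectedSpace S] [TopologicalSpace X]
    [MulAction S X] [ContinuousSMul S X] (hcomm : ∀ a b : S, a * b = b * a) {x : X}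
    (h : LeavesAt (univ : Set S) x) (s : S) : ∃ m : ℕ, 0 < m ∧ s ^ m • x = x := by
  classical
  obtain ⟨Y, _, ψ, r, hx, hT, h1, h2, h3⟩ := h
  have cx : ∀ z : X, Continuous fun k : S => k • z := fun z => by fun_prop
  -- an open subgroup `H` that keeps `x` in the chart
  obtain ⟨H, hH⟩ := ProfiniteGrp.exist_openNormalSubgroup_sub_open_nhds_of_one
    (U := {k : S | k • x ∈ ψ.source}) (ψ.open_source.preimage (cx x)) (by
      show (1 : S) • x ∈ ψ.source
      rw [one_smul]; exact hx)
  set H' : Subgroup S := H.toSubgroup with hH'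
  have hHo : IsOpen (H' : Set S) := H.isOpen'
  have hHc : IsClosed (H' : Set S) := Subgroup.isClosed_of_isOpen H' hHo
  haveI : CompactSpace H' := isCompact_iff_compactSpace.1 hHc.isCompact
  have hHs : ∀ k : H', (k : S) • x ∈ ψ.source := fun k => hH k.2
  -- Baire
  set E : Set Y := {y : Y | ∃ w ∈ ψ.source, r w x ∧ (ψ w).2 = y} with hE
  have hEc : E.Countable := h2 x
  haveI : Countable E := hEc.to_subtype
  have hcont : Continuous fun k : H' => ψ ((k : S) • x) :=
    ψ.continuousOn.comp_continuous ((cx x).comp continuous_subtype_val) hHs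
  obtain ⟨y0, k0, hk0⟩ := nonempty_interior_of_iUnion_of_closed
    (f := fun y : E => {k : H' | (ψ ((k : S) • x)).2 = y})
    (fun y => isClosed_eq (continuous_snd.comp hcont) continuous_const) (by
      rw [eq_univ_iff_forall]
      intro k
      refine mem_iUnion.2 ⟨⟨(ψ ((k : S) • x)).2, ⟨_, hHs k, h3 _ (mem_univ _) x, rfl⟩⟩, rfl⟩)
  set x' : X := (k0 : S) • x with hx'
  -- a neighbourhood of `1` in which the coordinate in `Y` is constant
  have hW1 : ∀ᶠ h : S in 𝓝 1, h • x' ∈ ψ.source ∧ (ψ (h • x')).2 = y0 := by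
    have ho : IsOpen ((Subtype.val : H' → S) '' ((fun h : H' => h * k0) ⁻¹'
        interior {k : H' | (ψ ((k : S) • x)).2 = y0})) :=
      hHo.isOpenMap_subtype_val _ (isOpen_interior.preimage (by fun_prop))
    have hm : (1 : S) ∈ ((Subtype.val : H' → S) '' ((fun h : H' => h * k0) ⁻¹'
        interior {k : H' | (ψ ((k : S) • x)).2 = y0})) := by
      refine ⟨1, ?_, rfl⟩
      show (1 : H') * k0 ∈ interior {k : H' | (ψ ((k : S) • x)).2 = y0}
      rw [one_mul]; exact hk0
    filter_upwards [ho.mem_nhds hm] with h hh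
    obtain ⟨h', hh', rfl⟩ := hh
    have e : (h' : S) • x' = ((h' * k0 : H') : S) • x := by
      rw [hx', smul_smul]; rfl
    rw [e]
    have h9 : (h' * k0) ∈ interior {k : H' | (ψ ((k : S) • x)).2 = y0} := hh'
    have h10 : (h' * k0) ∈ {k : H' | (ψ ((k : S) • x)).2 = y0} := interior_subset h9
    exact ⟨hHs _, h10⟩
  have hx's : x' ∈ ψ.source := by
    have := hW1.self_of_nhds.1
    rwa [one_smul] at this
  have hx'y : (ψ x').2 = y0 := by
    have := hW1.self_of_nhds.2
    rwa [one_smul] at this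
  set a0 : ℝ := (ψ x').1 with ha0
  let j : ℝ → X := fun b => ψ.symm (b, (y0 : Y))
  have hjs : ∀ b, j b ∈ ψ.source := fun b => ψ.map_target (by rw [hT]; trivial)
  have hψj : ∀ b, ψ (j b) = (b, (y0 : Y)) := fun b => ψ.right_inv (by rw [hT]; trivial)
  have hjψ : ∀ z ∈ ψ.source, (ψ z).2 = y0 → j (ψ z).1 = z := by
    intro z hz hy
    show ψ.symm ((ψ z).1, (y0 : Y)) = z
    rw [← hy]
    exact ψ.left_inv hz
  have hj0 : j a0 = x' := hjψ x' hx's hx'y
  have hjc : Continuous j := by
    have : ContinuousOn ψ.symm univ := by rw [← hT]; exact ψ.continuousOn_symm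
    exact (continuousOn_univ.1 this).comp (by fun_prop)
  set I : Set ℝ := Icc (a0 - 1) (a0 + 1) with hI
  -- tube lemma
  have hΩ : IsOpen {p : S × ℝ | p.1 • j p.2 ∈ ψ.source} :=
    ψ.open_source.preimage (continuous_fst.smul (hjc.comp continuous_snd))
  have hW2 : ∀ᶠ h : S in 𝓝 1, ∀ b ∈ I, h • j b ∈ ψ.source := by
    obtain ⟨u, v, hu, -, h1u, hIv, huv⟩ := generalized_tube_lemma
      (isCompact_singleton (x := (1 : S))) (isCompact_Icc (a := a0 - 1) (b := a0 + 1)) hΩ (by
        rintro ⟨p, b⟩ ⟨hp, -⟩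
        have hp' : p = 1 := hp
        show p • j b ∈ ψ.source
        rw [hp', one_smul]; exact hjs b)
    filter_upwards [hu.mem_nhds (h1u rfl)] with h hh b hb
    exact huv (mk_mem_prod hh (hIv hb))
  have hca : ContinuousAt (fun h : S => (ψ (h • x')).1) 1 := by
    have h4 : ContinuousAt (fun h : S => ψ (h • x')) 1 := by
      refine ContinuousAt.comp (g := ψ) ?_ (cx x').continuousAt
      rw [one_smul]
      exact ψ.continuousAt hx's
    exact continuous_fst.continuousAt.comp h4
  have hW3 : ∀ᶠ h : S in 𝓝 1, (ψ (h • x')).1 ∈ Ioo (a0 - 1) (a0 + 1) := by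
    refine hca.eventually_mem (Ioo_mem_nhds ?_ ?_) <;> rw [one_smul] <;> linarith
  obtain ⟨W, hWs, hWo, hW0⟩ := mem_nhds_iff.1 (hW1.and (hW2.and hW3))
  obtain ⟨N, hN⟩ := ProfiniteGrp.exist_openNormalSubgroup_sub_open_nhds_of_one hWo hW0
  have hN1 : ∀ h ∈ N, h • x' ∈ ψ.source := fun h hh => (hWs (hN hh)).1.1
  have hN2 : ∀ h ∈ N, (ψ (h • x')).2 = y0 := fun h hh => (hWs (hN hh)).1.2
  have hN3 : ∀ h ∈ N, ∀ b ∈ I, h • j b ∈ ψ.source := fun h hh => (hWs (hN hh)).2.1
  have hN4 : ∀ h ∈ N, (ψ (h • x')).1 ∈ Ioo (a0 - 1) (a0 + 1) := fun h hh => (hWs (hN hh)).2.2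
  let a : S → ℝ := fun h => (ψ (h • x')).1
  let F : S → ℝ → ℝ := fun h b => (ψ (h • j b)).1
  have haI : ∀ h ∈ N, a h ∈ I := fun h hh => ⟨(hN4 h hh).1.le, (hN4 h hh).2.le⟩
  have hja : ∀ h ∈ N, j (a h) = h • x' := fun h hh => hjψ _ (hN1 h hh) (hN2 h hh)
  have ha01 : a 1 = a0 := by
    show (ψ ((1 : S) • x')).1 = _
    rw [one_smul]
  have h0I : a0 ∈ I := ⟨by linarith, by linarith⟩
  -- the coordinate in `Y` is constant on lines
  have hcF : ∀ h ∈ N, ContinuousOn (fun b => ψ (h • j b)) I := by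
    intro h hh
    refine ψ.continuousOn.comp ((hjc.const_smul h).continuousOn) (hN3 h hh)
  have hy : ∀ h ∈ N, ∀ b ∈ I, (ψ (h • j b)).2 = y0 := by
    intro h hh b hb
    have hpre : IsPreconnected ((fun b => (ψ (h • j b)).2) '' I) :=
      isPreconnected_Icc.image _ (continuous_snd.comp_continuousOn (hcF h hh))
    have hsub : (fun b => (ψ (h • j b)).2) '' I ⊆
        {y : Y | ∃ w ∈ ψ.source, r w x' ∧ (ψ w).2 = y} := by
      rintro _ ⟨b', hb', rfl⟩
      refine ⟨_, hN3 h hh b' hb', ?_, rfl⟩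
      refine r.trans (h3 h (mem_univ _) (j b')) (h1 _ (hjs b') _ hx's ?_)
      rw [hψj, hx'y]
    have hsing := (h2 x').isTotallyDisconnected _ hsub hpre
    have e := hsing ⟨b, hb, rfl⟩ ⟨a0, h0I, rfl⟩
    have e' : (ψ (h • j b)).2 = (ψ (h • j a0)).2 := e
    rw [e', hj0]
    exact hN2 h hh
  have hjF : ∀ h ∈ N, ∀ b ∈ I, j (F h b) = h • j b := fun h hh b hb =>
    hjψ _ (hN3 h hh b hb) (hy h hh b hb)
  have hjinj : Function.Injective j := by
    intro b b' hbb
    have := congrArg ψ hbb
    rw [hψj, hψj] at this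
    exact congrArg Prod.fst this
  have hFinj : ∀ h ∈ N, InjOn (F h) I := by
    intro h hh b hb b' hb' hbb
    have h5 : h • j b = h • j b' := by rw [← hjF h hh b hb, ← hjF h hh b' hb', hbb]
    exact hjinj (smul_left_cancel h h5)
  have hFc : ∀ h ∈ N, ContinuousOn (F h) I := fun h hh =>
    continuous_fst.comp_continuousOn (hcF h hh)
  have hFa : ∀ h ∈ N, ∀ k ∈ N, F h (a k) = a (h * k) := by
    intro h hh k hk
    show (ψ (h • j (a k))).1 = (ψ ((h * k) • x')).1
    rw [hja k hk, smul_smul]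
  have hF0 : ∀ h ∈ N, F h a0 = a h := by
    intro h hh
    show (ψ (h • j a0)).1 = (ψ (h • x')).1
    rw [hj0]
  have hFF : ∀ h ∈ N, ∀ b ∈ I, F h b ∈ I → F (h * h) b = F h (F h b) := by
    intro h hh b hb hFb
    show (ψ ((h * h) • j b)).1 = (ψ (h • j (F h b))).1
    rw [hjF h hh b hb, smul_smul]
  -- the element
  obtain ⟨M, hM, htN⟩ := exists_pow_mem (W := (N : Set S)) (N.isOpen'.mem_nhds (one_mem N)) s
  set t : S := s ^ M with ht
  have htN' : t ∈ N := htN
  have huN : t * t ∈ N := mul_mem htN' htN'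
  have hab : a0 - 1 ≤ a0 + 1 := by linarith
  have hmono : StrictMonoOn (F (t * t)) I := by
    rcases ContinuousOn.strictMonoOn_of_injOn_Icc' hab (hFc _ huN) (hFinj _ huN) with h4 | h4
    · exact h4
    exfalso
    -- a point `b > a0` with `F t b` in `I`
    obtain ⟨b, hb, hbt, hbI⟩ : ∃ b, a0 < b ∧ F t b ∈ I ∧ b ∈ I := by
      have hc : ContinuousWithinAt (F t) I a0 := hFc t htN' a0 h0I
      have hmem : Ioo (a0 - 1) (a0 + 1) ∈ 𝓝 (F t a0) := by
        rw [hF0 t htN']
        exact Ioo_mem_nhds (hN4 t htN').1 (hN4 t htN').2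
      have hev : ∀ᶠ b in 𝓝[I] a0, F t b ∈ Ioo (a0 - 1) (a0 + 1) := hc hmem
      have hle : 𝓝[>] a0 ≤ 𝓝[I] a0 := by
        have : Ioc a0 (a0 + 1) ∈ 𝓝[>] a0 := Ioc_mem_nhdsGT (by linarith)
        refine le_inf inf_le_left ?_
        rw [le_principal_iff]
        exact mem_of_superset this fun b hb => ⟨by linarith [hb.1], hb.2⟩
      have hev2 : ∀ᶠ b in 𝓝[>] a0, F t b ∈ Ioo (a0 - 1) (a0 + 1) := hle hev
      have hev3 : ∀ᶠ b in 𝓝[>] a0, a0 < b ∧ b ∈ I := by
        filter_upwards [Ioc_mem_nhdsGT (show a0 < a0 + 1 by linarith)] with b hb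
        exact ⟨hb.1, by linarith [hb.1], hb.2⟩
      obtain ⟨b, hb1, hb2⟩ := (hev2.and hev3).exists
      exact ⟨b, hb2.1, ⟨hb1.1.le, hb1.2.le⟩, hb2.2⟩
    have e1 := hFF t htN' b hbI hbt
    have e2 := hFF t htN' a0 h0I (by rw [hF0 t htN']; exact haI t htN')
    have e3 : F (t * t) b < F (t * t) a0 := h4 h0I hbI hb
    rw [e1, e2] at e3
    have hFt0 : F t a0 ∈ I := by rw [hF0 t htN']; exact haI t htN'
    rcases ContinuousOn.strictMonoOn_of_injOn_Icc' hab (hFc _ htN') (hFinj _ htN') with h5 | h5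
    · exact absurd e3 (not_lt.2 (h5 hFt0 hbt (h5 h0I hbI hb)).le)
    · exact absurd e3 (not_lt.2 (h5 hbt hFt0 (h5 h0I hbI hb)).le)
  have hpN : ∀ m : ℕ, (t * t) ^ m ∈ N := fun m => pow_mem huN m
  have hau : a (t * t) = a0 := by
    rcases lt_trichotomy (a (t * t)) a0 with h4 | h4 | h4
    · exfalso
      have hs : StrictAnti fun m : ℕ => a ((t * t) ^ m) := by
        refine strictAnti_nat_of_succ_lt fun m => ?_
        induction m with
        | zero => simpa [ha01] using h4
        | succ m ih =>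
          have e1 := hFa (t * t) huN _ (hpN (m + 1))
          have e2 := hFa (t * t) huN _ (hpN m)
          rw [← pow_succ'] at e1 e2
          rw [← e1]
          nth_rewrite 2 [← e2]
          exact hmono (haI _ (hpN _)) (haI _ (hpN _)) ih
      have hnear : ∀ᶠ h : S in 𝓝 1, a (t * t) < a h := by
        have : ContinuousAt a 1 := hca
        exact this.eventually_const_lt (by rw [ha01]; exact h4)
      obtain ⟨m, hm, hm'⟩ := exists_pow_mem hnear (t * t)
      have h6 : a ((t * t) ^ m) ≤ a ((t * t) ^ 1) := hs.antitone hm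
      rw [pow_one] at h6
      exact absurd (show a (t * t) < a ((t * t) ^ m) from hm') (not_lt.2 h6)
    · exact h4
    · exfalso
      have hs : StrictMono fun m : ℕ => a ((t * t) ^ m) := by
        refine strictMono_nat_of_lt_succ fun m => ?_
        induction m with
        | zero => simpa [ha01] using h4
        | succ m ih =>
          have e1 := hFa (t * t) huN _ (hpN (m + 1))
          have e2 := hFa (t * t) huN _ (hpN m)
          rw [← pow_succ'] at e1 e2
          rw [← e1]
          nth_rewrite 1 [← e2]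
          exact hmono (haI _ (hpN _)) (haI _ (hpN _)) ih
      have hnear : ∀ᶠ h : S in 𝓝 1, a h < a (t * t) := by
        have : ContinuousAt a 1 := hca
        exact this.eventually_lt_const (by rw [ha01]; exact h4)
      obtain ⟨m, hm, hm'⟩ := exists_pow_mem hnear (t * t)
      have h6 : a ((t * t) ^ 1) ≤ a ((t * t) ^ m) := hs.monotone hm
      rw [pow_one] at h6
      exact absurd (show a ((t * t) ^ m) < a (t * t) from hm') (not_lt.2 h6)
  have hfix : (t * t) • x' = x' := by
    rw [← hja _ huN, hau, hj0]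
  refine ⟨M + M, by omega, ?_⟩
  have h7 : s ^ (M + M) = t * t := pow_add s M M
  rw [h7]
  have h8 : (k0 : S) • ((t * t) • x) = (k0 : S) • x := by
    rw [smul_smul, hcomm, ← smul_smul]
    exact hfix
  exact smul_left_cancel _ h8

/-- If the closure of the powers of `g` is compact, totally disconnected and preserves the leaves
near `x`, then a positive power of `g` fixes `x`. -/
theorem exists_pow_fix {G X : Type} [Group G] [TopologicalSpace G] [IsTopologicalGroup G]
    [T2Space G] [TopologicalSpace X] [MulAction G X] [ContinuousSMul G X] {g : G}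
    (hc : IsCompact (closure (Subgroup.zpowers g : Set G)))
    (htd : IsTotallyDisconnected (closure (Subgroup.zpowers g : Set G))) {x : X}
    (h : LeavesAt (closure (Subgroup.zpowers g : Set G)) x) : ∃ m : ℕ, 0 < m ∧ g ^ m • x = x := by
  set S : Subgroup G := (Subgroup.zpowers g).topologicalClosure with hS
  have hco : (S : Set G) = closure (Subgroup.zpowers g : Set G) :=
    Subgroup.topologicalClosure_coe
  haveI : CompactSpace S := isCompact_iff_compactSpace.1 (by rw [hco]; exact hc)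
  haveI : TotallyDisconnectedSpace S := totallyDisconnectedSpace_subtype_iff.2 (by
    rw [← hco] at htd; exact htd)
  have hcomm : ∀ a b : S, a * b = b * a := by
    have hz : ∀ a b : Subgroup.zpowers g, a * b = b * a := by
      rintro ⟨a, i, rfl⟩ ⟨b, j, rfl⟩
      apply Subtype.ext
      show g ^ i * g ^ j = g ^ j * g ^ i
      rw [← zpow_add, ← zpow_add, add_comm]
    intro a b
    exact (Subgroup.commGroupTopologicalClosure (Subgroup.zpowers g) hz).mul_comm a b
  have hl : LeavesAt (univ : Set S) x := by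
    obtain ⟨Y, i, ψ, r, h1, h2, h3, h4, h5⟩ := h
    refine ⟨Y, i, ψ, r, h1, h2, h3, h4, fun k _ z => ?_⟩
    exact h5 (k : G) (by rw [← hco]; exact k.2) z
  have hg : g ∈ S := (Subgroup.le_topologicalClosure _) (Subgroup.mem_zpowers g)
  obtain ⟨m, hm, h6⟩ := finite_orbit hcomm hl ⟨g, hg⟩
  exact ⟨m, hm, h6⟩

end Pool.Agent.U161.LF
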